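import Pool.Agent.TH296.NC.RInt
import Pool.Agent.TH511.J165
import Pool.Agent.Y919.NC.Flow

set_option autoImplicit false

/-!
# Nilsequence averages and weak divergence of double averages

There is a single integer sequence `a` along which the averages of all nilsequences of step at
most two converge, while for every three-term progression `0, p, q` (in any order) the averages of
`T^{p a(n)} f · T^{q a(n)} g` diverge even weakly, for a circle extension `T` of a rotation of the
infinite torus and characters `f`, `g` of the circle.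
-/

open Filter Topology MeasureTheory
open scoped Manifold ContDiff ComplexConjugate commutatorElement

namespace Pool.Agent.Results.MP_fc4783_an.WeakDivergence

/-- `F` is bounded, and its restriction to the closed set `X` is continuous at almost every point
of `X` for every `T`-invariant Borel probability measure carried by `X`. -/
def RiemannIntegrableOn {Y : Type} [TopologicalSpace Y] [MeasurableSpace Y] (T : Y → Y) (X : Set Y)
    (F : Y → ℂ) : Prop :=
  (∃ M : ℝ, ∀ x, ‖F x‖ ≤ M) ∧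
    ∀ ν : Measure Y, IsProbabilityMeasure ν → MeasurePreserving T ν ν → ν Xᶜ = 0 →
      ∀ᵐ x ∂ν, ContinuousWithinAt F X x

/-- `φ` is a basic 2-step nilsequence: `φ m = F (b ^ m • y)` for a nilmanifold `G ⧸ Γ`, where `G`
is a real Lie group, nilpotent of step at most two, `Γ` is discrete and cocompact, `b ∈ G`,
`y ∈ G ⧸ Γ`, and `F` is Riemann integrable on the closure of the orbit of `y` under `b`. -/
def IsBasicNilsequence (φ : ℤ → ℂ) : Prop :=
  ∃ (E : Type) (_ : NormedAddCommGroup E) (_ : NormedSpace ℝ E) (_ : FiniteDimensional ℝ E)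
    (G : Type) (_ : Group G) (_ : TopologicalSpace G) (_ : T2Space G)
    (_ : SecondCountableTopology G) (_ : ChartedSpace E G) (_ : LieGroup 𝓘(ℝ, E) ∞ G)
    (_ : Group.IsNilpotent G) (Γ : Subgroup G) (_ : MeasurableSpace (G ⧸ Γ))
    (_ : BorelSpace (G ⧸ Γ)) (b : G) (y : G ⧸ Γ) (F : G ⧸ Γ → ℂ),
    Group.nilpotencyClass G ≤ 2 ∧ DiscreteTopology Γ ∧ CompactSpace (G ⧸ Γ) ∧
      RiemannIntegrableOn (fun x : G ⧸ Γ => b • x) (closure (Set.range fun m : ℤ => b ^ m • y)) F ∧
      ∀ m : ℤ, φ m = F (b ^ m • y)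

/-- 2-step nilsequences: uniform limits of basic ones -/
def IsNilsequence (ψ : ℤ → ℂ) : Prop :=
  ∀ ε : ℝ, 0 < ε → ∃ φ : ℤ → ℂ, IsBasicNilsequence φ ∧ ∀ m : ℤ, ‖ψ m - φ m‖ ≤ ε

/-- The averages `(1/N) ∑_{n=1}^{N} ψ (a n)` converge for every 2-step nilsequence `ψ`. -/
def NilsequenceAveragesConverge (a : ℕ → ℤ) : Prop :=
  ∀ ψ : ℤ → ℂ, IsNilsequence ψ →
    ∃ L : ℂ, Tendsto (fun N : ℕ => (1 / (N : ℂ)) * ∑ n ∈ Finset.Icc 1 N, ψ (a n)) atTop (𝓝 L)

/-- The functions `A N` converge in `L²(μ)` as `N → ∞`. -/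
def ConvergesInMean {X : Type} [MeasurableSpace X] (μ : Measure X) (A : ℕ → X → ℂ) : Prop :=
  ∃ h : X → ℂ, MemLp h 2 μ ∧ Tendsto (fun N => eLpNorm (fun x => A N x - h x) 2 μ) atTop (𝓝 0)

/-- For every invertible measure preserving system and all bounded `f`, `g` the averages
`(1/N) ∑_{n=1}^{N} f(T^{a(n)} x) g(T^{2a(n)} x)` converge in `L²(μ)`. -/
def DoubleAveragesConverge (a : ℕ → ℤ) : Prop :=
  ∀ (X : Type) [MeasurableSpace X] (μ : Measure X) [IsProbabilityMeasure μ] (T : Equiv.Perm X),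
    MeasurePreserving T μ μ → MeasurePreserving T.symm μ μ →
    ∀ f g : X → ℂ, MemLp f ⊤ μ → MemLp g ⊤ μ →
      ConvergesInMean μ (fun (N : ℕ) (x : X) =>
        (1 / (N : ℂ)) * ∑ n ∈ Finset.Icc 1 N, f ((T ^ a n) x) * g ((T ^ (2 * a n)) x))

/-- The infinite torus. -/
abbrev Tor : Type := ℕ → UnitAddCircle

/-- The circle extension of the rotation by `α` of the infinite torus with cocycle `φ`: the
bijection `T (u, w) = (u + α, w + φ u)`. -/
def skew (α : Tor) (φ : Tor → UnitAddCircle) : Equiv.Perm (Tor × UnitAddCircle) where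
  toFun x := (x.1 + α, x.2 + φ x.1)
  invFun x := (x.1 - α, x.2 - φ (x.1 - α))
  left_inv x := by simp
  right_inv x := by simp

/-- The Haar probability measure of the compact group `Tor × UnitAddCircle`. -/
noncomputable def haar : Measure (Tor × UnitAddCircle) :=
  (Measure.infinitePi fun _ : ℕ => (volume : Measure UnitAddCircle)).prod volume

/-- The character `(u, w) ↦ exp (2 π i k w)`. -/
noncomputable def ch (k : ℤ) (x : Tor × UnitAddCircle) : ℂ := fourier k x.2

/-- There is a circle extension `T` (a homeomorphism, preserving the Haar measure) of a rotation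
of the infinite torus, with a continuous cocycle, and there are characters `f₀ f₁ f₂` of the last
coordinate for which the averages `(1/N) ∑_{n=1}^{N} ∫ f₀ · T^{p a(n)} f₁ · T^{q a(n)} f₂`
diverge.  In particular the averages of `T^{p a(n)} f₁ · T^{q a(n)} f₂` do not converge weakly. -/
def WeaklyDivergent (a : ℕ → ℤ) (p q : ℤ) : Prop :=
  ∃ (α : Tor) (φ : Tor → UnitAddCircle), Continuous φ ∧
    MeasurePreserving (skew α φ) haar haar ∧ MeasurePreserving (skew α φ).symm haar haar ∧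
    ∃ k₀ k₁ k₂ : ℤ, ¬ ∃ L : ℂ, Tendsto (fun N : ℕ => (1 / (N : ℂ)) * ∑ n ∈ Finset.Icc 1 N,
      ∫ x, ch k₀ x * (ch k₁ (((skew α φ) ^ (p * a n)) x) *
        ch k₂ (((skew α φ) ^ (q * a n)) x)) ∂haar) atTop (𝓝 L)

open Pool.Agent.TH296.NC

/-- commutators are central in a group of class at most two -/
theorem comm_central {G : Type} [Group G] [Group.IsNilpotent G] (h : Group.nilpotencyClass G ≤ 2)
    (x y : G) : ⁅x, y⁆ ∈ Subgroup.center G := by
  have h2 : Subgroup.upperCentralSeries G 2 = ⊤ :=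
    Subgroup.upperCentralSeries_eq_top_iff_nilpotencyClass_le.mpr h
  have h3 : x ∈ Subgroup.upperCentralSeries G (1 + 1) := by
    rw [h2]; exact Subgroup.mem_top x
  have h4 := Subgroup.mem_upperCentralSeries_succ_iff.mp h3 y
  rwa [Subgroup.upperCentralSeries_one] at h4

/-- averages of basic nilsequences against the signed weights converge -/
theorem basic_converge (𝔭 : Par) {φ : ℤ → ℂ} (hφ : IsBasicNilsequence φ) :
    (∃ M : ℝ, ∀ m, ‖φ m‖ ≤ M) ∧
    ∃ L, Tendsto (fun k => Av (𝔭.N k) (fun n => (𝔭.ww k n : ℂ) * φ n)) atTop (𝓝 L) := by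
  obtain ⟨E, _, _, _, G, _, _, _, _, _, _, _, Γ, _, _, b, y, F, hcl, hd, hc, ⟨⟨M, hM⟩, hF⟩, hφ⟩ := hφ
  have : IsTopologicalGroup G := topologicalGroup_of_lieGroup 𝓘(ℝ, E) ∞
  have : ProperSpace E := FiniteDimensional.proper ℝ E
  have : LocallyCompactSpace G := ChartedSpace.locallyCompactSpace E G
  obtain ⟨L, hL⟩ := stepC E Γ 𝔭 (comm_central hcl) b y F M hM hF
  refine ⟨⟨M, fun m => by rw [hφ]; exact hM _⟩, L, ?_⟩
  simpa only [hφ] using hL

theorem mass_ww (𝔭 : Par) {k : ℕ} (hk : 1 ≤ k) : AvR (𝔭.N k) (𝔭.ww k) ≤ 4 := by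
  have h1 : AvR (𝔭.N k) (𝔭.ww k) ≤ AvR (𝔭.N k) (fun n => 2 * 𝔭.W k n) :=
    AvR_mono' fun n => 𝔭.ww_le k n
  rw [AvR_const_mul] at h1
  have h2 := 𝔭.mass k hk
  have h3 : AvR (𝔭.N k) (fun n => 𝔭.W k n) = AvR (𝔭.N k) (𝔭.W k) := rfl
  rw [h3] at h1
  linarith

/-- averages of nilsequences against the signed weights converge -/
theorem nil_converge (𝔭 : Par) {ψ : ℤ → ℂ} (hψ : IsNilsequence ψ) :
    (∃ M : ℝ, ∀ m, ‖ψ m‖ ≤ M) ∧
    ∃ L, Tendsto (fun k => Av (𝔭.N k) (fun n => (𝔭.ww k n : ℂ) * ψ n)) atTop (𝓝 L) := by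
  constructor
  · obtain ⟨φ, hφ, hψφ⟩ := hψ 1 one_pos
    obtain ⟨⟨M, hM⟩, -⟩ := basic_converge 𝔭 hφ
    refine ⟨1 + M, fun m => ?_⟩
    have e : ψ m = (ψ m - φ m) + φ m := by ring
    rw [e]
    exact (norm_add_le _ _).trans (add_le_add (hψφ m) (hM m))
  · apply conv_of_approx
    intro ε hε
    obtain ⟨φ, hφ, hψφ⟩ := hψ (ε / 4) (by positivity)
    refine ⟨_, (basic_converge 𝔭 hφ).2, ?_⟩
    filter_upwards [eventually_ge_atTop 1] with k hk
    rw [← Av_sub]
    have h1 : ‖Av (𝔭.N k) (fun n => (𝔭.ww k n : ℂ) * ψ n - (𝔭.ww k n : ℂ) * φ n)‖ ≤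
        AvR (𝔭.N k) (fun n => (ε / 4) * 𝔭.ww k n) := by
      apply norm_Av_le_of_le'
      intro n
      rw [← mul_sub, norm_mul, Complex.norm_real, Real.norm_of_nonneg (𝔭.ww_nonneg k n), mul_comm]
      exact mul_le_mul_of_nonneg_right (hψφ n) (𝔭.ww_nonneg k n)
    refine h1.trans ?_
    rw [AvR_const_mul]
    have h2 := mass_ww 𝔭 hk
    have h3 : AvR (𝔭.N k) (fun n => 𝔭.ww k n) = AvR (𝔭.N k) (𝔭.ww k) := rfl
    rw [h3]
    nlinarith

/-- the total mass of the signed weights tends to one -/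
theorem tendsto_mass_ww (𝔭 : Par) : Tendsto (fun k => AvR (𝔭.N k) (𝔭.ww k)) atTop (𝓝 1) := by
  have l2 : Tendsto (fun k => Av (𝔭.N k) (𝔭.P k)) atTop (𝓝 0) := by
    have h := 𝔭.char_P 1
    unfold Lm at h
    refine h.congr fun d => ?_
    congr 1; funext n; beta_reduce; rw [one_zpow, Circle.coe_one, mul_one]
  have l4 : Tendsto (fun k => AvR (𝔭.N k) (𝔭.W k)) atTop (𝓝 1) := by
    have h := MM_one_tendsto 𝔭.adm' BB_one_le 𝔭.BB_le
    refine h.congr fun d => ?_
    exact (AvR_WW_eq 𝔭.ζ 𝔭.N BB_one_le d).symm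
  have l3 : Tendsto (fun k : ℕ => (-1 : ℝ) ^ k * (Av (𝔭.N k) (𝔭.P k)).re) atTop (𝓝 0) := by
    have h1 := tendsto_zero_iff_norm_tendsto_zero.mp l2
    apply squeeze_zero_norm _ h1
    intro k
    rw [norm_mul, norm_pow, norm_neg, norm_one, one_pow, one_mul, Real.norm_eq_abs]
    exact Complex.abs_re_le_norm _
  have h := l4.add l3
  rw [add_zero] at h
  refine h.congr fun k => ?_
  have e : (Av (𝔭.N k) (𝔭.P k)).re = AvR (𝔭.N k) (fun n => (𝔭.P k n).re) := by
    unfold Av AvR
    have e1 : ((𝔭.N k : ℂ)) ^ 2 = (((𝔭.N k : ℝ) ^ 2 : ℝ) : ℂ) := by push_cast; rfl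
    rw [e1, Complex.div_ofReal_re]
    simp only [Complex.re_sum]
  rw [e, ← AvR_const_mul, ← AvR_add]
  rfl

/-! ### the flow -/

open Pool.Agent.TH286.NC (C1 ee ee_ne norm_ee continuous_ee)
open Pool.Agent.Y919.NC (Flow Phi corr corr_est Flow_add Flow_zero mp_Flow continuous_Flow
  continuous_Phi)

theorem haar_eq : haar = Pool.Agent.TH286.NC.MM := rfl

instance : IsProbabilityMeasure haar :=
  inferInstanceAs (IsProbabilityMeasure Pool.Agent.TH286.NC.MM)

theorem ch_eq (k : ℤ) (x : Tor × UnitAddCircle) : ch k x = ee x.2 ^ k := by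
  unfold ch ee
  rw [fourier_apply, AddCircle.toCircle_zsmul]
  rfl

theorem norm_ch (k : ℤ) (x : Tor × UnitAddCircle) : ‖ch k x‖ = 1 := by
  rw [ch_eq, norm_zpow, norm_ee, one_zpow]

theorem continuous_ch (k : ℤ) : Continuous (ch k) := (fourier k).continuous.comp continuous_snd

section sys

variable (𝔭 : Par)

/-- the translation part -/
noncomputable def al (s : ℝ) : Tor := fun i => ((s * 𝔭.α i : ℝ) : UnitAddCircle)

/-- the cocycle -/
noncomputable def ph (s : ℝ) (u : Tor) : UnitAddCircle := ((Phi 𝔭.α 𝔭.a s u : ℝ) : UnitAddCircle)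

theorem skew_apply (s : ℝ) (x : Tor × UnitAddCircle) :
    skew (al 𝔭 s) (ph 𝔭 s) x = Flow 𝔭.α 𝔭.a s x := rfl

theorem skew_zpow (s : ℝ) (n : ℤ) (x : Tor × UnitAddCircle) :
    ((skew (al 𝔭 s) (ph 𝔭 s)) ^ n) x = Flow 𝔭.α 𝔭.a (n * s) x := by
  have hsymm : ∀ x, (skew (al 𝔭 s) (ph 𝔭 s))⁻¹ x = Flow 𝔭.α 𝔭.a (-s) x := by
    intro x
    rw [Equiv.Perm.inv_eq_iff_eq, skew_apply, Flow_add 𝔭.hα 𝔭.summable_a_alpha, add_neg_cancel,
      Flow_zero]
  induction n using Int.induction_on generalizing x with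
  | zero => rw [zpow_zero, Int.cast_zero, zero_mul, Flow_zero]; rfl
  | succ k ih =>
    rw [zpow_add_one, Equiv.Perm.mul_apply, ih, skew_apply,
      Flow_add 𝔭.hα 𝔭.summable_a_alpha]
    congr 1
    push_cast
    ring
  | pred k ih =>
    rw [zpow_sub_one, Equiv.Perm.mul_apply, ih, hsymm, Flow_add 𝔭.hα 𝔭.summable_a_alpha]
    congr 1
    push_cast
    ring

theorem mp_skew (s : ℝ) : MeasurePreserving (skew (al 𝔭 s) (ph 𝔭 s)) haar haar :=
  mp_Flow 𝔭.hα 𝔭.summable_a_alpha s

theorem symm_skew (s : ℝ) (x : Tor × UnitAddCircle) :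
    (skew (al 𝔭 s) (ph 𝔭 s)).symm x = Flow 𝔭.α 𝔭.a (-s) x := by
  rw [Equiv.symm_apply_eq, skew_apply, Flow_add 𝔭.hα 𝔭.summable_a_alpha, add_neg_cancel,
    Flow_zero]

theorem mp_skew_symm (s : ℝ) : MeasurePreserving (skew (al 𝔭 s) (ph 𝔭 s)).symm haar haar := by
  have h : ((skew (al 𝔭 s) (ph 𝔭 s)).symm : Tor × UnitAddCircle → _) = Flow 𝔭.α 𝔭.a (-s) :=
    funext (symm_skew 𝔭 s)
  rw [h]
  exact mp_Flow 𝔭.hα 𝔭.summable_a_alpha (-s)

theorem continuous_ph (s : ℝ) : Continuous (ph 𝔭 s) :=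
  (AddCircle.continuous_mk' (1 : ℝ)).comp (continuous_Phi 𝔭.hα 𝔭.summable_a_alpha s)

/-- the correlation sequence -/
noncomputable def CC (n : ℤ) : ℂ := corr 𝔭.α 𝔭.a n

theorem CC_eq (n : ℤ) : CC 𝔭 n = ∫ x, ch 1 x * (ch (-2) (Flow 𝔭.α 𝔭.a n x) *
    ch 1 (Flow 𝔭.α 𝔭.a (2 * n) x)) ∂haar := by
  unfold CC corr
  refine integral_congr_ae (Eventually.of_forall fun x => ?_)
  simp only [ch_eq, zpow_one]
  congr 2
  rw [zpow_neg, inv_pow]
  rfl

theorem CC_eq' (n : ℤ) : CC 𝔭 n = ∫ x, ch (-2) x * (ch 1 (Flow 𝔭.α 𝔭.a n x) *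
    ch 1 (Flow 𝔭.α 𝔭.a (-n) x)) ∂haar := by
  rw [CC_eq]
  have hmp := mp_Flow (α := 𝔭.α) (a := 𝔭.a) 𝔭.hα 𝔭.summable_a_alpha (n : ℝ)
  set F : Tor × UnitAddCircle → ℂ := fun y => ch (-2) y * (ch 1 (Flow 𝔭.α 𝔭.a n y) *
    ch 1 (Flow 𝔭.α 𝔭.a (-n) y)) with hF
  have hFc : Continuous F :=
    (continuous_ch _).mul (((continuous_ch _).comp (continuous_Flow 𝔭.hα 𝔭.summable_a_alpha _)).mul
      ((continuous_ch _).comp (continuous_Flow 𝔭.hα 𝔭.summable_a_alpha _)))
  have h1 : ∫ y, F y ∂haar = ∫ x, F (Flow 𝔭.α 𝔭.a n x) ∂haar := by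
    rw [haar_eq]
    conv_lhs => rw [← hmp.map_eq]
    exact integral_map hmp.measurable.aemeasurable hFc.aestronglyMeasurable
  rw [h1]
  refine integral_congr_ae (Eventually.of_forall fun x => ?_)
  simp only [hF]
  rw [Flow_add 𝔭.hα 𝔭.summable_a_alpha, Flow_add 𝔭.hα 𝔭.summable_a_alpha, neg_add_cancel,
    Flow_zero, two_mul]
  ring

theorem norm_CC_le (n : ℤ) : ‖CC 𝔭 n‖ ≤ 1 := by
  rw [CC_eq]
  have := norm_integral_le_of_norm_le_const (μ := haar)
    (f := fun x => ch 1 x * (ch (-2) (Flow 𝔭.α 𝔭.a n x) * ch 1 (Flow 𝔭.α 𝔭.a (2 * n) x)))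
    (C := 1) (Eventually.of_forall fun x => by
      rw [norm_mul, norm_mul, norm_ch, norm_ch, norm_ch]; norm_num)
  have h1 : haar.real Set.univ = 1 := by simp
  rw [h1, mul_one] at this
  exact this

end sys

/-- **Theorem.** There is a sequence of integers along which the averages of all 2-step
nilsequences converge, and for which the double averages of `T^{p a(n)} f · T^{q a(n)} g` diverge
weakly for circle extensions of rotations, whenever `0, p, q` form a three-term arithmetic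
progression in some order. -/
theorem result : ∃ a : ℕ → ℤ, NilsequenceAveragesConverge a ∧ ¬ DoubleAveragesConverge a ∧
    ∀ p q : ℤ, p ≠ 0 → (q = 2 * p ∨ p = 2 * q ∨ q = -p) → WeaklyDivergent a p q := by
  obtain ⟨𝔭⟩ := nonempty_par
  -- realize the signed weights by a sequence
  obtain ⟨a, ha⟩ := Pool.Agent.TH511.J165.exists_seq_of_weights
    (fun k => Finset.range (𝔭.N k) ×ˢ Finset.range (𝔭.N k))
    (fun p : ℕ × ℕ => (p.1 : ℤ) - (p.2 : ℤ))
    (fun k p => 𝔭.ww k ((p.1 : ℤ) - (p.2 : ℤ)) / (𝔭.N k : ℝ) ^ 2)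
    (fun k p _ => div_nonneg (𝔭.ww_nonneg _ _) (by positivity)) (by
      refine (tendsto_mass_ww 𝔭).congr fun k => ?_
      unfold AvR
      rw [Finset.sum_product, Finset.sum_div]
      refine Finset.sum_congr rfl fun j _ => ?_
      rw [Finset.sum_div])
  have hav : ∀ (Ψ : ℤ → ℂ) (k : ℕ), ∑ p ∈ Finset.range (𝔭.N k) ×ˢ Finset.range (𝔭.N k),
      ((𝔭.ww k ((p.1 : ℤ) - (p.2 : ℤ)) / (𝔭.N k : ℝ) ^ 2 : ℝ) : ℂ) * Ψ ((p.1 : ℤ) - (p.2 : ℤ)) =
      Av (𝔭.N k) (fun n => (𝔭.ww k n : ℂ) * Ψ n) := by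
    intro Ψ k
    unfold Av
    rw [Finset.sum_product, Finset.sum_div]
    refine Finset.sum_congr rfl fun j _ => ?_
    rw [Finset.sum_div]
    refine Finset.sum_congr rfl fun l _ => ?_
    push_cast
    ring
  simp only [hav] at ha
  -- divergence of the averages of the correlation sequence
  have hdiv : ¬ ∃ L : ℂ, Tendsto (fun N : ℕ => (1 / (N : ℂ)) * ∑ n ∈ Finset.Icc 1 N,
      CC 𝔭 (a n)) atTop (𝓝 L) := by
    rintro ⟨L, hlimC⟩
    have hlimW := (ha (CC 𝔭) ⟨1, norm_CC_le 𝔭⟩ _).mpr hlimC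
    have hest := 𝔭.estimate (C := CC 𝔭)
      (fun n => corr_est 𝔭.α 𝔭.a 𝔭.hα 𝔭.summable_alpha 𝔭.summable_a_alpha (n : ℝ))
    have hre := (Complex.continuous_re.tendsto _).comp hlimW
    have heven : 1 / 4 ≤ L.re := by
      have hsub : Tendsto (fun k : ℕ => 2 * k) atTop atTop :=
        (show StrictMono (fun k : ℕ => 2 * k) from fun i j hij => by
          beta_reduce; omega).tendsto_atTop
      apply ge_of_tendsto (hre.comp hsub)
      filter_upwards [hsub.eventually hest] with k hk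
      simp only [Function.comp_apply]
      have e : ((-1 : ℂ)) ^ (2 * k) = 1 := by rw [pow_mul]; norm_num
      rw [e, one_mul] at hk
      exact hk
    have hodd : L.re ≤ -(1 / 4) := by
      have hsub : Tendsto (fun k : ℕ => 2 * k + 1) atTop atTop :=
        (show StrictMono (fun k : ℕ => 2 * k + 1) from fun i j hij => by
          beta_reduce; omega).tendsto_atTop
      apply le_of_tendsto (hre.comp hsub)
      filter_upwards [hsub.eventually hest] with k hk
      simp only [Function.comp_apply]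
      have e : ((-1 : ℂ)) ^ (2 * k + 1) = -1 := by rw [pow_succ, pow_mul]; norm_num
      rw [e, neg_one_mul, Complex.neg_re] at hk
      linarith
    linarith
  refine ⟨a, fun ψ hψ => ?_, fun hD => hdiv ?_, ?_⟩
  · obtain ⟨hb, L, hL⟩ := nil_converge 𝔭 hψ
    exact ⟨L, (ha ψ hb L).mp hL⟩
  · -- convergence in the mean would give convergence of the averages of the correlations
    set μ : Measure (Tor × UnitAddCircle) := haar with hμ
    set T : Equiv.Perm (Tor × UnitAddCircle) := skew (al 𝔭 1) (ph 𝔭 1) with hTdef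
    have hT : MeasurePreserving T μ μ := mp_skew 𝔭 1
    have hTs : MeasurePreserving T.symm μ μ := mp_skew_symm 𝔭 1
    have hT' : Measurable T.symm := hTs.measurable
    set f₀ : Tor × UnitAddCircle → ℂ := ch 1 with hf₀
    set f₁ : Tor × UnitAddCircle → ℂ := ch (-2) with hf₁
    set f₂ : Tor × UnitAddCircle → ℂ := ch 1 with hf₂
    have hm0 : Measurable f₀ := (continuous_ch _).measurable
    have hm1 : Measurable f₁ := (continuous_ch _).measurable
    have hm2 : Measurable f₂ := (continuous_ch _).measurable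
    have hn0 : ∀ x, ‖f₀ x‖ ≤ 1 := fun x => (norm_ch _ x).le
    have hn1 : ∀ x, ‖f₁ x‖ ≤ 1 := fun x => (norm_ch _ x).le
    have hn2 : ∀ x, ‖f₂ x‖ ≤ 1 := fun x => (norm_ch _ x).le
    have hmT : ∀ m : ℤ, Measurable (fun x => (T ^ m) x) := by
      have hpos : ∀ m : ℕ, Measurable (fun x => (T ^ m) x) := by
        intro m
        induction m with
        | zero => exact measurable_id
        | succ m ih =>
          have : (fun x => (T ^ (m + 1)) x) = fun x => (T ^ m) (T x) := by
            funext x; rw [pow_succ]; rfl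
          rw [this]; exact ih.comp hT.measurable
      have hneg : ∀ m : ℕ, Measurable (fun x => ((T⁻¹) ^ m) x) := by
        intro m
        induction m with
        | zero => exact measurable_id
        | succ m ih =>
          have : (fun x => ((T⁻¹) ^ (m + 1)) x) = fun x => ((T⁻¹) ^ m) (T.symm x) := by
            funext x; rw [pow_succ]; rfl
          rw [this]; exact ih.comp hT'
      intro m
      obtain ⟨p, rfl | rfl⟩ := m.eq_nat_or_neg
      · simpa using hpos p
      · have := hneg p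
        simpa using this
    have hf1 : MemLp f₁ ⊤ μ := memLp_top_of_bound hm1.aestronglyMeasurable 1 (ae_of_all _ hn1)
    have hf2 : MemLp f₂ ⊤ μ := memLp_top_of_bound hm2.aestronglyMeasurable 1 (ae_of_all _ hn2)
    obtain ⟨h, hh, hlim⟩ := hD (Tor × UnitAddCircle) μ T hT hTs f₁ f₂ hf1 hf2
    set g : ℤ → Tor × UnitAddCircle → ℂ := fun m x => f₁ ((T ^ m) x) * f₂ ((T ^ (2 * m)) x) with hg
    have hgm : ∀ m, Measurable (g m) := fun m => (hm1.comp (hmT m)).mul (hm2.comp (hmT (2 * m)))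
    have hgn : ∀ m x, ‖g m x‖ ≤ 1 := by
      intro m x
      rw [hg]
      simp only [norm_mul]
      calc _ ≤ (1 : ℝ) * 1 := mul_le_mul (hn1 _) (hn2 _) (norm_nonneg _) zero_le_one
        _ = 1 := one_mul 1
    have hfg : ∀ m, Integrable (fun x => f₀ x * g m x) μ := by
      intro m
      apply Integrable.of_bound (hm0.mul (hgm m)).aestronglyMeasurable 1
      apply ae_of_all
      intro x
      rw [Pi.mul_apply, norm_mul]
      calc _ ≤ (1 : ℝ) * 1 := mul_le_mul (hn0 _) (hgn _ _) (norm_nonneg _) zero_le_one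
        _ = 1 := one_mul 1
    set C : ℤ → ℂ := fun m => ∫ x, f₀ x * g m x ∂μ with hCdef
    have hCb : ∀ m, ‖C m‖ ≤ 1 := by
      intro m
      have := norm_integral_le_of_norm_le_const (μ := μ) (f := fun x => f₀ x * g m x) (C := 1)
        (ae_of_all _ fun x => by
          rw [norm_mul]
          calc _ ≤ (1 : ℝ) * 1 := mul_le_mul (hn0 _) (hgn _ _) (norm_nonneg _) zero_le_one
            _ = 1 := one_mul 1)
      simpa using this
    -- the averages of the correlations converge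
    set A : ℕ → Tor × UnitAddCircle → ℂ := fun N x => (1 / (N : ℂ)) * ∑ n ∈ Finset.Icc 1 N, g (a n) x with hA
    have hAm : ∀ N, Measurable (A N) := by
      intro N
      exact (Finset.measurable_sum _ fun n _ => hgm (a n)).const_mul _
    have hAint : ∀ N, ∫ x, f₀ x * A N x ∂μ = (1 / (N : ℂ)) * ∑ n ∈ Finset.Icc 1 N, C (a n) := by
      intro N
      have e1 : (fun x => f₀ x * A N x) = fun x => (1 / (N : ℂ)) *
          ∑ n ∈ Finset.Icc 1 N, f₀ x * g (a n) x := by
        funext x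
        rw [hA]
        simp only [Finset.mul_sum]
        refine Finset.sum_congr rfl fun n _ => by ring
      rw [e1, integral_const_mul, integral_finsetSum]
      intro n _
      exact hfg _
    have hlimC : Tendsto (fun N : ℕ => (1 / (N : ℂ)) * ∑ n ∈ Finset.Icc 1 N, C (a n)) atTop
        (𝓝 (∫ x, f₀ x * h x ∂μ)) := by
      rw [tendsto_iff_norm_sub_tendsto_zero]
      have hreal : Tendsto (fun N => (eLpNorm (fun x => A N x - h x) 2 μ).toReal) atTop (𝓝 0) := by
        have := (ENNReal.tendsto_toReal ENNReal.zero_ne_top).comp hlim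
        rw [ENNReal.toReal_zero] at this
        exact this
      apply squeeze_zero' (Eventually.of_forall fun _ => norm_nonneg _) _ hreal
      have hfin : ∀ᶠ N in atTop, eLpNorm (fun x => A N x - h x) 2 μ < ⊤ :=
        hlim.eventually_lt_const (by norm_num)
      filter_upwards [hfin] with N hN
      have hhint : Integrable h μ := hh.integrable (by norm_num)
      have hAi : Integrable (A N) μ := by
        have : ∀ x, ‖A N x‖ ≤ ‖(1 / (N : ℂ))‖ * ∑ n ∈ Finset.Icc 1 N, (1 : ℝ) := by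
          intro x
          rw [hA]
          simp only [norm_mul]
          gcongr
          exact (norm_sum_le _ _).trans (Finset.sum_le_sum fun n _ => hgn _ _)
        exact Integrable.of_bound (hAm N).aestronglyMeasurable _ (ae_of_all _ this)
      have hf0h : Integrable (fun x => f₀ x * h x) μ :=
        hhint.bdd_mul hm0.aestronglyMeasurable (ae_of_all _ hn0)
      have hf0A : Integrable (fun x => f₀ x * A N x) μ :=
        hAi.bdd_mul hm0.aestronglyMeasurable (ae_of_all _ hn0)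
      rw [← hAint N, ← integral_sub hf0A hf0h]
      have h1 : ‖∫ x, (f₀ x * A N x - f₀ x * h x) ∂μ‖ ≤ ∫ x, ‖A N x - h x‖ ∂μ := by
        refine (norm_integral_le_integral_norm _).trans ?_
        apply integral_mono_of_nonneg (ae_of_all _ fun x => norm_nonneg _) (hAi.sub hhint).norm
        apply ae_of_all
        intro x
        simp only
        rw [← mul_sub, norm_mul]
        calc _ ≤ 1 * ‖A N x - h x‖ := mul_le_mul_of_nonneg_right (hn0 x) (norm_nonneg _)
          _ = _ := one_mul _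
      refine h1.trans ?_
      have h2 : ∫ x, ‖A N x - h x‖ ∂μ = (eLpNorm (fun x => A N x - h x) 1 μ).toReal := by
        rw [eLpNorm_one_eq_lintegral_enorm, ← integral_norm_eq_lintegral_enorm]
        exact (hAi.sub hhint).aestronglyMeasurable
      rw [h2]
      apply ENNReal.toReal_mono hN.ne
      exact eLpNorm_le_eLpNorm_of_exponent_le (by norm_num) (hAi.sub hhint).aestronglyMeasurable
    refine ⟨_, hlimC.congr fun N => ?_⟩
    congr 1
    refine Finset.sum_congr rfl fun n _ => ?_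
    rw [CC_eq, hCdef]
    simp only [hg]
    rw [hTdef]
    refine integral_congr_ae (Eventually.of_forall fun x => ?_)
    simp only [skew_zpow, mul_one]
    push_cast
    rfl
  · -- weak divergence for all three-term progressions
    intro p q hp hpq
    rcases hpq with rfl | rfl | rfl
    · have hp' : (p : ℝ) ≠ 0 := Int.cast_ne_zero.2 hp
      refine ⟨al 𝔭 (1 / p), ph 𝔭 (1 / p), continuous_ph 𝔭 _, mp_skew 𝔭 _, mp_skew_symm 𝔭 _,
        1, -2, 1, ?_⟩
      refine fun h => hdiv ?_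
      obtain ⟨L, hL⟩ := h
      refine ⟨L, hL.congr fun N => ?_⟩
      congr 1
      refine Finset.sum_congr rfl fun n _ => ?_
      rw [CC_eq]
      refine integral_congr_ae (Eventually.of_forall fun x => ?_)
      simp only [skew_zpow]
      have e1 : ((p * a n : ℤ) : ℝ) * (1 / p) = (a n : ℝ) := by
        push_cast; field_simp
      have e2 : ((2 * p * a n : ℤ) : ℝ) * (1 / p) = 2 * (a n : ℝ) := by
        push_cast; field_simp
      rw [e1, e2]
    · have hq : q ≠ 0 := by rintro rfl; exact hp rfl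
      have hq' : (q : ℝ) ≠ 0 := Int.cast_ne_zero.2 hq
      refine ⟨al 𝔭 (1 / q), ph 𝔭 (1 / q), continuous_ph 𝔭 _, mp_skew 𝔭 _, mp_skew_symm 𝔭 _,
        1, 1, -2, ?_⟩
      refine fun h => hdiv ?_
      obtain ⟨L, hL⟩ := h
      refine ⟨L, hL.congr fun N => ?_⟩
      congr 1
      refine Finset.sum_congr rfl fun n _ => ?_
      rw [CC_eq]
      refine integral_congr_ae (Eventually.of_forall fun x => ?_)
      simp only [skew_zpow]
      have e1 : ((q * a n : ℤ) : ℝ) * (1 / q) = (a n : ℝ) := by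
        push_cast; field_simp
      have e2 : ((2 * q * a n : ℤ) : ℝ) * (1 / q) = 2 * (a n : ℝ) := by
        push_cast; field_simp
      rw [e1, e2]
      ring
    · have hp' : (p : ℝ) ≠ 0 := Int.cast_ne_zero.2 hp
      refine ⟨al 𝔭 (1 / p), ph 𝔭 (1 / p), continuous_ph 𝔭 _, mp_skew 𝔭 _, mp_skew_symm 𝔭 _,
        -2, 1, 1, ?_⟩
      refine fun h => hdiv ?_
      obtain ⟨L, hL⟩ := h
      refine ⟨L, hL.congr fun N => ?_⟩
      congr 1
      refine Finset.sum_congr rfl fun n _ => ?_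
      rw [CC_eq']
      refine integral_congr_ae (Eventually.of_forall fun x => ?_)
      simp only [skew_zpow]
      have e1 : ((p * a n : ℤ) : ℝ) * (1 / p) = (a n : ℝ) := by
        push_cast; field_simp
      have e2 : ((-p * a n : ℤ) : ℝ) * (1 / p) = -(a n : ℝ) := by
        push_cast; field_simp
      rw [e1, e2]

end Pool.Agent.Results.MP_fc4783_an.WeakDivergence
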